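import Pool.Agent.V11288.BS.Cur
import Pool.Agent.TH941.Newform
import Pool.Agent.W263.BSD.Lead8

/-!
# The original Birch and Swinnerton-Dyer asymptotic and one-sided slow variation

Let `C : y² = x³ + a x + b` be an elliptic curve over `ℚ`, `a, b ∈ ℤ`, `N_p` the number of affine points
modulo the good primes `p ∤ 2Δ`, `P(x) = ∏_{p ≤ x, p ∤ 2Δ} (N_p + 1)/p` the original product of Birch and
Swinnerton-Dyer, with the sharp cut-off, and `F` the entire continuation of the incomplete `L`-series.
Goldfeld (1982) proved that the original asymptotic formula `P(x) ∼ A (log x)^m` implies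
`m = ord_{s=1} F`, `A = √2 e^{mγ} m! / F^{(m)}(1)` and the absence of zeros of `F` with `Re s > 1`. There is no
converse under the Riemann hypothesis: the asymptotic formula is equivalent to a bound for the error
term of the explicit formula that is stronger than what the Riemann hypothesis gives (Kuo-Murty,
Conrad, 2005).

Here it is shown that, for every `m` and `B ≠ 0`, the following are EQUIVALENT:

* `P(x) ∼ (√2 e^{mγ} / B) (log x)^m`;
* `F` has order `m` and leading coefficient `B` at `s = 1`, and `P` is slowly varying from above: for every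
  `ε > 0` there is `δ > 0` with `P(y) ≤ (1 + ε) P(x)` for `x ≤ y ≤ x^(1 + δ)`, `x` large;
* `F` has order `m` and leading coefficient `B` at `s = 1`, no REAL zeros `s > 1`, and `P` is slowly varying
  from below: `P(x) ≤ (1 + ε) P(y)` for `x ≤ y ≤ x^(1 + δ)`, `x` large.

So the numerical form of the leading-term formula of Birch and Swinnerton-Dyer (with `m` the rank and `B`
the algebraic side times the Euler factors removed) is the leading-term formula together with a
ONE-SIDED Tauberian condition on the products of points over primes in short multiplicative windows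
`[x, x^(1+δ)]`. No zeros off the line have to be excluded beforehand.

The one-sided Tauberian theorem is proved in the library (`Pool.Agent.W263.BSD`, for a product with
second order correction terms); the theorem of Rankin and Selberg is proved from the newform in
`Pool.Agent.TH941.Newform`.
-/

set_option autoImplicit false

namespace Pool.Agent.Results.MP_92892c_nt.OneSidedSlowVariation

open Pool.Agent.W263.BSD Filter Topology Classical MeasureTheory
open CongruenceSubgroup UpperHalfPlane
open scoped MatrixGroups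

/-- The original product `P(x) = ∏_{p ≤ x, p ∤ 2Δ} (N_p + 1)/p`. -/
noncomputable def P (a b : ℤ) (x : ℝ) : ℝ :=
  ∏ p ∈ (Finset.range (⌊x⌋₊ + 1)).filter (GoodPrime a b), (((pointCount a b p : ℝ) + 1) / p)

/-- `P(x) ∼ (√2 e^{mγ} / B) (log x)^m`. -/
def Asymptotic (a b : ℤ) (m : ℕ) (B : ℂ) : Prop :=
  Tendsto (fun x : ℝ => ((P a b x / Real.log x ^ m : ℝ) : ℂ)) atTop
    (𝓝 (((√2 * Real.exp (m * Real.eulerMascheroniConstant) : ℝ) : ℂ) / B))

/-- The order of `F` at `1` is `m` and the leading coefficient is `B`. -/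
def Leading (F : ℂ → ℂ) (m : ℕ) (B : ℂ) : Prop :=
  analyticOrderAt F 1 = m ∧ iteratedDeriv m F 1 / m.factorial = B

/-- Slow variation from above: `P(y) ≤ (1 + ε) P(x)` for `x ≤ y ≤ x^(1 + δ)`. -/
def SlowAbove (a b : ℤ) : Prop :=
  ∀ ε : ℝ, 0 < ε → ∃ δ : ℝ, 0 < δ ∧ ∀ᶠ x : ℝ in atTop, ∀ y, x ≤ y → y ≤ x ^ (1 + δ) →
    P a b y ≤ (1 + ε) * P a b x

/-- Slow variation from below: `P(x) ≤ (1 + ε) P(y)` for `x ≤ y ≤ x^(1 + δ)`. -/
def SlowBelow (a b : ℤ) : Prop :=
  ∀ ε : ℝ, 0 < ε → ∃ δ : ℝ, 0 < δ ∧ ∀ᶠ x : ℝ in atTop, ∀ y, x ≤ y → y ≤ x ^ (1 + δ) →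
    P a b x ≤ (1 + ε) * P a b y

/-- The `n`-th Fourier coefficient of `f`. -/
noncomputable def coef {N : ℕ} (f : CuspForm (Gamma0 N : Subgroup (GL (Fin 2) ℝ)) 2) (n : ℕ) : ℂ :=
  (qExpansion 1 f).coeff n

/-- `f ∈ S_2(Γ₀(N))` is the newform of the elliptic curve `E : y² = x³ + a x + b` of conductor `N`: the
Fourier coefficients `c(n)` of `f` are real with `c(1) = 1`, they satisfy the Hecke relations
`c(mn) = c(m) c(n)` for coprime `m`, `n` and `c(p^(j+2)) = c(p) c(p^(j+1)) - p c(p^j)` (without the last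
term if `p ∣ N`), `c(p) = a_p = p - N_p` (`N_p` affine points) for all primes `p ∤ 2Δ`, `|c(p)| ≤ 2 √p` for
all `p ∤ N` (Hasse) and `c(p) = 0, 1, -1` for `p ∣ N`. -/
structure IsNewformOf (a b : ℤ) (N : ℕ) (f : CuspForm (Gamma0 N : Subgroup (GL (Fin 2) ℝ)) 2) :
    Prop where
  one : coef f 1 = 1
  real : ∀ n, (coef f n).im = 0
  mul : ∀ m n : ℕ, Nat.Coprime m n → coef f (m * n) = coef f m * coef f n
  pow : ∀ p j : ℕ, p.Prime → coef f (p ^ (j + 2)) = coef f p * coef f (p ^ (j + 1)) -
      (if p ∣ N then 0 else (p : ℂ) * coef f (p ^ j))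
  points : ∀ p : ℕ, GoodPrime a b p → coef f p = (p : ℂ) - (pointCount a b p : ℂ)
  good : ∀ p : ℕ, p.Prime → ¬ p ∣ N → ‖coef f p‖ ≤ 2 * Real.sqrt p
  bad : ∀ p : ℕ, p.Prime → p ∣ N → coef f p = 0 ∨ coef f p = 1 ∨ coef f p = -1

theorem hecke {a b : ℤ} {N : ℕ} {f : CuspForm (Gamma0 N : Subgroup (GL (Fin 2) ℝ)) 2}
    (hf : IsNewformOf a b N f) : Pool.Agent.TH941.Hecke f where
  one := hf.one
  real := hf.real
  mul := hf.mul
  pow := hf.pow
  good := hf.good
  bad := fun p hp h => by
    rcases hf.bad p hp h with h1 | h1 | h1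
    · have h2 : ‖coef f p‖ ≤ 1 := by rw [h1]; simp
      exact h2
    · have h2 : ‖coef f p‖ ≤ 1 := by rw [h1]; simp
      exact h2
    · have h2 : ‖coef f p‖ ≤ 1 := by rw [h1]; simp
      exact h2

variable {a b : ℤ} {F : ℂ → ℂ}

theorem loglog_tendsto : Tendsto (fun X : ℝ => Real.log (Real.log X)) atTop atTop :=
  Real.tendsto_log_atTop.comp Real.tendsto_log_atTop

/-- The leading coefficient is a positive real number if the asymptotic formula holds. -/
theorem lead_real (hΔ : 4 * a ^ 3 + 27 * b ^ 2 ≠ 0) (hrs : Tendsto (rsSum a b) atTop (𝓝 0))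
    (hF : IsLSeries a b F) {r : ℕ} (hr : analyticOrderAt F 1 = r)
    (h : Tendsto (fun x : ℝ => bsdStar a b x / (Real.log x) ^ r) atTop
      (𝓝 (Real.exp (r * Real.eulerMascheroniConstant) / leadAbs F r))) :
    iteratedDeriv r F 1 / (r.factorial : ℂ) = (leadAbs F r : ℂ) := by
  have hpos := (lead_limit hF.1 hr).1
  obtain ⟨K, hK⟩ := order_of_tendsto (by positivity) h
  obtain ⟨c, hc⟩ := Pool.Agent.V11288.BS.lead_pos hΔ hrs hF hr
    fun s hs => no_zeros_of_order hF hK hs
  have h1 : 0 < √2 * Real.exp (r * Real.eulerMascheroniConstant) / Real.exp c := by positivity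
  have h2 : leadAbs F r = √2 * Real.exp (r * Real.eulerMascheroniConstant) / Real.exp c := by
    have h3 : ‖iteratedDeriv r F 1 / (r.factorial : ℂ)‖ = leadAbs F r := by
      unfold leadAbs
      rw [norm_div, Complex.norm_natCast]
    rw [← h3, hc, Complex.norm_real, Real.norm_of_nonneg h1.le]
  rw [hc, h2]

/-- From the normalised corrected product to the asymptotic formula. -/
theorem asym_of (hΔ : 4 * a ^ 3 + 27 * b ^ 2 ≠ 0) (hrs : Tendsto (rsSum a b) atTop (𝓝 0))
    (hF : IsLSeries a b F) {m : ℕ} {B : ℂ} (hL : Leading F m B)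
    (h : Tendsto (fun x : ℝ => bsdStar a b x / (Real.log x) ^ m) atTop
      (𝓝 (Real.exp (m * Real.eulerMascheroniConstant) / leadAbs F m))) : Asymptotic a b m B := by
  have h1 := lead_real hΔ hrs hF hL.1 h
  rw [hL.2] at h1
  have h2 := (product_iff_star hΔ hrs m _).2 h
  unfold Asymptotic
  have h3 : (((√2 * Real.exp (m * Real.eulerMascheroniConstant) : ℝ) : ℂ) / B) =
      ((√2 * (Real.exp (m * Real.eulerMascheroniConstant) / leadAbs F m) : ℝ) : ℂ) := by
    rw [h1]
    push_cast
    rw [mul_div_assoc]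
  rw [h3]
  exact (Complex.continuous_ofReal.tendsto _).comp h2

/-- The converse. -/
theorem of_asym (hΔ : 4 * a ^ 3 + 27 * b ^ 2 ≠ 0) (hrs : Tendsto (rsSum a b) atTop (𝓝 0))
    (hF : IsLSeries a b F) {m : ℕ} {B : ℂ} (hB : B ≠ 0) (h : Asymptotic a b m B) :
    Leading F m B ∧ Tendsto (fun x : ℝ => bsdStar a b x / (Real.log x) ^ m) atTop
      (𝓝 (Real.exp (m * Real.eulerMascheroniConstant) / leadAbs F m)) := by
  unfold Asymptotic at h
  obtain ⟨c, hc0, hc1⟩ : ∃ c : ℝ, 0 < c ∧
      ((√2 * Real.exp (m * Real.eulerMascheroniConstant) : ℝ) : ℂ) / B = (c : ℂ) := by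
    set w : ℂ := ((√2 * Real.exp (m * Real.eulerMascheroniConstant) : ℝ) : ℂ) / B with hw
    have h2 : 0 < √2 * Real.exp (m * Real.eulerMascheroniConstant) := by positivity
    have h3 : w ≠ 0 := by
      rw [hw]
      refine div_ne_zero ?_ hB
      exact_mod_cast h2.ne'
    have him : w.im = 0 := by
      have e1 : Tendsto (fun _ : ℝ => (0 : ℝ)) atTop (𝓝 w.im) := by
        refine ((Complex.continuous_im.tendsto w).comp h).congr fun X => ?_
        simp only [Function.comp_apply, Complex.ofReal_im]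
      exact (tendsto_nhds_unique e1 tendsto_const_nhds)
    have hre : 0 ≤ w.re := by
      have e1 : Tendsto (fun X : ℝ => P a b X / Real.log X ^ m) atTop (𝓝 w.re) := by
        refine ((Complex.continuous_re.tendsto w).comp h).congr fun X => ?_
        simp only [Function.comp_apply, Complex.ofReal_re]
      refine ge_of_tendsto e1 ?_
      filter_upwards [eventually_gt_atTop 1] with X hX
      have h4 := Real.log_pos hX
      have h5 : 0 < P a b X := bsdProduct_pos X
      positivity
    have hwr : w = (w.re : ℂ) := by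
      apply Complex.ext
      · rw [Complex.ofReal_re]
      · rw [Complex.ofReal_im, him]
    refine ⟨w.re, lt_of_le_of_ne hre ?_, hwr⟩
    intro h0
    apply h3
    rw [hwr, ← h0, Complex.ofReal_zero]
  rw [hc1] at h
  have h1 : Tendsto (fun x : ℝ => bsdProduct a b x / Real.log x ^ m) atTop (𝓝 (√2 * (c / √2))) := by
    have e1 : √2 * (c / √2) = c := by
      have : √2 ≠ 0 := by positivity
      field_simp
    rw [e1]
    refine ((Complex.continuous_re.tendsto (c : ℂ)).comp h).congr fun X => ?_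
    simp only [Function.comp_apply, Complex.ofReal_re]
    rfl
  have h2 := (product_iff_star hΔ hrs m (c / √2)).1 h1
  have hc2 : 0 < c / √2 := by positivity
  obtain ⟨r, hr⟩ := order_finite hF
  have hpos := (lead_limit hF.1 hr).1
  have h3 : Tendsto (fun x : ℝ => bsdStar a b x / (Real.log x) ^ r) atTop
      (𝓝 (Real.exp (r * Real.eulerMascheroniConstant) / leadAbs F r)) := by
    refine ((lead_tfae hF hr).out 2 0).1 fun ε hε => ?_
    obtain ⟨δ, hδ, h4⟩ := slow_of_tendsto hc2 h2 hε
    exact ⟨δ, hδ, h4.mono fun x hx y h5 h6 => (hx y h5 h6).1⟩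
  have hT : 0 < Real.exp (r * Real.eulerMascheroniConstant) / leadAbs F r := by positivity
  -- the exponents agree
  have hlog : ∀ (k : ℕ) (C : ℝ), 0 < C →
      Tendsto (fun x : ℝ => bsdStar a b x / (Real.log x) ^ k) atTop (𝓝 C) →
      Tendsto (fun x : ℝ => Real.log (bsdStar a b x) - k * Real.log (Real.log x)) atTop
        (𝓝 (Real.log C)) := by
    intro k C hC h4
    refine (((Real.continuousAt_log hC.ne').tendsto).comp h4).congr' ?_
    filter_upwards [eventually_gt_atTop 1] with x hx
    have h5 := Real.log_pos hx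
    simp only [Function.comp_apply]
    rw [Real.log_div (bsdStar_pos x).ne' (pow_pos h5 k).ne', Real.log_pow]
  have h4 := hlog m _ hc2 h2
  have h5 := hlog r _ hT h3
  have hrm : r = m := by
    by_contra hne
    have h6 : Tendsto (fun X : ℝ => ((r : ℝ) - m) * Real.log (Real.log X)) atTop
        (𝓝 (Real.log (c / √2) - Real.log (Real.exp (r * Real.eulerMascheroniConstant) /
          leadAbs F r))) := by
      refine (h4.sub h5).congr fun X => ?_
      ring
    have h7 : ((r : ℝ) - m) ≠ 0 := sub_ne_zero.2 (by exact_mod_cast hne)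
    have h8 := h6.const_mul ((r : ℝ) - m)⁻¹
    have h9 : Tendsto (fun X : ℝ => Real.log (Real.log X)) atTop
        (𝓝 (((r : ℝ) - m)⁻¹ * (Real.log (c / √2) -
          Real.log (Real.exp (r * Real.eulerMascheroniConstant) / leadAbs F r)))) := by
      refine h8.congr fun X => ?_
      rw [← mul_assoc, inv_mul_cancel₀ h7, one_mul]
    exact not_tendsto_nhds_of_tendsto_atTop loglog_tendsto _ h9
  subst hrm
  refine ⟨⟨hr, ?_⟩, h3⟩
  rw [lead_real hΔ hrs hF hr h3]
  have h6 : c / √2 = Real.exp (r * Real.eulerMascheroniConstant) / leadAbs F r :=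
    tendsto_nhds_unique h2 h3
  have h7 : c = √2 * Real.exp (r * Real.eulerMascheroniConstant) / leadAbs F r := by
    have : √2 ≠ 0 := by positivity
    rw [div_eq_iff this] at h6
    rw [h6]
    ring
  have h8 : (leadAbs F r : ℂ) ≠ 0 := by exact_mod_cast hpos.ne'
  have h9 : ((√2 * Real.exp (r * Real.eulerMascheroniConstant) : ℝ) : ℂ) ≠ 0 := by
    have : 0 < √2 * Real.exp (r * Real.eulerMascheroniConstant) := by positivity
    exact_mod_cast this.ne'
  rw [h7, Complex.ofReal_div, div_eq_div_iff hB h8] at hc1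
  exact mul_left_cancel₀ h9 hc1

/-- **Theorem.** Let `f` be the newform of `C : y² = x³ + a x + b` and `F` the entire continuation of the
incomplete `L`-series of `C`. For every natural number `m` and every complex number `B ≠ 0` are
equivalent: the original asymptotic formula `P(x) ∼ (√2 e^{mγ} / B) (log x)^m`; the order of `F` at
`s = 1` is `m`, its leading coefficient is `B`, and `P` is slowly varying from above; the order is `m`, the
leading coefficient is `B`, `F` has no real zeros `s > 1` and `P` is slowly varying from below. -/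
theorem result (a b : ℤ) (hΔ : 4 * a ^ 3 + 27 * b ^ 2 ≠ 0) (F : ℂ → ℂ) (hF : IsLSeries a b F)
    (N : ℕ) [NeZero N] (f : CuspForm (Gamma0 N : Subgroup (GL (Fin 2) ℝ)) 2)
    (hf : IsNewformOf a b N f) (m : ℕ) (B : ℂ) (hB : B ≠ 0) :
    List.TFAE [
      Asymptotic a b m B,
      Leading F m B ∧ SlowAbove a b,
      Leading F m B ∧ (∀ s : ℝ, 1 < s → F s ≠ 0) ∧ SlowBelow a b] := by
  have hrs : Tendsto (rsSum a b) atTop (𝓝 0) :=
    (hecke hf).rsSum_tendsto hΔ fun p hp => hf.points p hp
  tfae_have 1 → 2 := by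
    intro h
    obtain ⟨h1, h2⟩ := of_asym hΔ hrs hF hB h
    exact ⟨h1, ((lead_tfae hF h1.1).out 0 2).1 h2⟩
  tfae_have 1 → 3 := by
    intro h
    obtain ⟨h1, h2⟩ := of_asym hΔ hrs hF hB h
    exact ⟨h1, ((lead_tfae hF h1.1).out 0 3).1 h2⟩
  tfae_have 2 → 1 := by
    rintro ⟨h1, h2⟩
    exact asym_of hΔ hrs hF h1 (((lead_tfae hF h1.1).out 2 0).1 h2)
  tfae_have 3 → 1 := by
    rintro ⟨h1, h2⟩
    exact asym_of hΔ hrs hF h1 (((lead_tfae hF h1.1).out 3 0).1 h2)
  tfae_finish

end Pool.Agent.Results.MP_92892c_nt.OneSidedSlowVariation
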