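import Pool.Agent.TH942.SL.CurveLim
import Pool.Agent.TH941.Newform

/-!
# The leading coefficient from sectorial means of the original Birch and Swinnerton-Dyer products

Let `C : y² = x³ + a x + b` be an elliptic curve over `ℚ`, `a, b ∈ ℤ`, `N_p` the number of affine points
modulo the good primes `p ∤ 2Δ`, and `F` the entire continuation of the incomplete `L`-series (Euler
factors at the primes dividing `2Δ` removed). Goldfeld (1982) proved that if
`∏_{p ≤ x} (N_p + 1)/p ∼ A (log x)^m` then `m = ord_{s=1} F`, `A = √2 e^{mγ} m! / F^{(m)}(1)` and `F` has no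
zero with `Re s > 1`.

Here the sharp cut-off is replaced by the weights `w_ρ(u) = (1/2πi) ∫ exp(z - u z^{1/ρ}) dz/z`, `ρ > 1` (for
`ρ = 2` this is the error function `erfc(u/2)`), which decay so fast that the means
`S_ρ(X) = ∑ w_ρ(log p / log X) log ((N_p + 1)/p)` are, up to an error tending to zero, finite sums over
`p ≤ exp ((log X)^{ρ'})` for any `ρ' > ρ`. For every `ρ > 1`, every natural number `m` and every `B ≠ 0` the
following are EQUIVALENT:

* the order of `F` at `s = 1` is `m`, the leading coefficient `F^{(m)}(1)/m!` is `B`, and `F` has no zero in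
  the open sector `|arg (s - 1)| < π/(2ρ)`;
* `exp (S_ρ(X)) ∼ (√2 e^{mγ/ρ} / B) (log X)^m`.

With `m` the rank and `B` the algebraic side of the formula of Birch and Swinnerton-Dyer (times the
Euler factors removed) this is a scale of numerical forms of the leading-term formula, each equivalent
to the formula together with the absence of zeros in one sector; for `ρ → 1` the sectors exhaust the half
plane `Re s > 1` and the constant becomes Goldfeld's, so all of them together are equivalent to the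
leading-term formula and the Riemann hypothesis for `C`. The starting result `RotatedLeadingTerm` has
complex weights and is equivalent to the leading-term formula alone.

The limit of the means is proved in the library (`Pool.Agent.TH942.SL`).
-/

set_option autoImplicit false

namespace Pool.Agent.Results.MP_92892c_nt.SectorialLeadingTerm

open Pool.Agent.W263.BSD Filter Topology Classical MeasureTheory
open CongruenceSubgroup UpperHalfPlane
open scoped MatrixGroups

/-- The weight `w_ρ(u) = (1/2πi) ∫_{Re z = 1} exp(z - u z^{1/ρ}) dz/z`. -/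
noncomputable def weight (ρ u : ℝ) : ℝ :=
  (2 * Real.pi)⁻¹ * ∫ t : ℝ, (Complex.exp ((1 + t * Complex.I) -
    u * (1 + t * Complex.I) ^ ((ρ⁻¹ : ℝ) : ℂ)) / (1 + t * Complex.I)).re

/-- The mean `∑ w_ρ(log p / log X) log ((N_p + 1)/p)` over the `p ∤ 2Δ` up to `exp ((log X)^{ρ'})`. -/
noncomputable def mean (a b : ℤ) (ρ ρ' X : ℝ) : ℝ :=
  ∑ p ∈ (Finset.range (⌊Real.exp (Real.log X ^ ρ')⌋₊ + 1)).filter (GoodPrime a b),
    weight ρ (Real.log p / Real.log X) * Real.log (((pointCount a b p : ℝ) + 1) / p)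

/-- The open sector `|arg (s - 1)| < π/(2ρ)` with vertex `1`. -/
def Sector (ρ : ℝ) : Set ℂ := {s | s ≠ 1 ∧ |(s - 1).arg| < Real.pi / (2 * ρ)}

/-- `exp (S_ρ(X)) ∼ (√2 e^{mγ/ρ} / B) (log X)^m`. -/
def Formula (a b : ℤ) (ρ ρ' : ℝ) (m : ℕ) (B : ℂ) : Prop :=
  Tendsto (fun X : ℝ => ((Real.exp (mean a b ρ ρ' X) / Real.log X ^ m : ℝ) : ℂ)) atTop
    (𝓝 (((√2 * Real.exp (m * Real.eulerMascheroniConstant / ρ) : ℝ) : ℂ) / B))

/-- The order of `F` at `1` is `m` and the leading coefficient is `B`. -/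
def Leading (F : ℂ → ℂ) (m : ℕ) (B : ℂ) : Prop :=
  analyticOrderAt F 1 = m ∧ iteratedDeriv m F 1 / m.factorial = B

/-- The `n`-th Fourier coefficient of `f`. -/
noncomputable def coef {N : ℕ} (f : CuspForm (Gamma0 N : Subgroup (GL (Fin 2) ℝ)) 2) (n : ℕ) : ℂ :=
  (qExpansion 1 f).coeff n

/-- `f ∈ S_2(Γ₀(N))` is the newform of the elliptic curve `E : y² = x³ + a x + b` of conductor `N`: the
Fourier coefficients `c(n)` of `f` are real with `c(1) = 1`, they satisfy the Hecke relations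
`c(mn) = c(m) c(n)` for coprime `m`, `n` and `c(p^(j+2)) = c(p) c(p^(j+1)) - p c(p^j)` (without the last
term if `p ∣ N`), `c(p) = a_p = p - N_p` (`N_p` affine points) for all primes `p ∤ 2Δ`, `|c(p)| ≤ 2 √p` for
all `p ∤ N` (Hasse) and `c(p) = 0, 1, -1` for `p ∣ N`. -/
structure IsNewformOf (a b : ℤ) (N : ℕ) (f : CuspForm (Gamma0 N : Subgroup (GL (Fin 2) ℝ)) 2) :
    Prop where
  one : coef f 1 = 1
  real : ∀ n, (coef f n).im = 0
  mul : ∀ m n : ℕ, Nat.Coprime m n → coef f (m * n) = coef f m * coef f n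
  pow : ∀ p j : ℕ, p.Prime → coef f (p ^ (j + 2)) = coef f p * coef f (p ^ (j + 1)) -
      (if p ∣ N then 0 else (p : ℂ) * coef f (p ^ j))
  points : ∀ p : ℕ, GoodPrime a b p → coef f p = (p : ℂ) - (pointCount a b p : ℂ)
  good : ∀ p : ℕ, p.Prime → ¬ p ∣ N → ‖coef f p‖ ≤ 2 * Real.sqrt p
  bad : ∀ p : ℕ, p.Prime → p ∣ N → coef f p = 0 ∨ coef f p = 1 ∨ coef f p = -1

theorem hecke {a b : ℤ} {N : ℕ} {f : CuspForm (Gamma0 N : Subgroup (GL (Fin 2) ℝ)) 2}
    (hf : IsNewformOf a b N f) : Pool.Agent.TH941.Hecke f where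
  one := hf.one
  real := hf.real
  mul := hf.mul
  pow := hf.pow
  good := hf.good
  bad := fun p hp h => by
    rcases hf.bad p hp h with h1 | h1 | h1
    · have h2 : ‖coef f p‖ ≤ 1 := by rw [h1]; simp
      exact h2
    · have h2 : ‖coef f p‖ ≤ 1 := by rw [h1]; simp
      exact h2
    · have h2 : ‖coef f p‖ ≤ 1 := by rw [h1]; simp
      exact h2

theorem mean_eq (a b : ℤ) (ρ ρ' X : ℝ) :
    mean a b ρ ρ' X = Pool.Agent.TH942.SL.Sr a b ρ ρ' X := rfl

theorem loglog_tendsto : Tendsto (fun X : ℝ => Real.log (Real.log X)) atTop atTop :=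
  Real.tendsto_log_atTop.comp Real.tendsto_log_atTop

theorem exp_eq' {S X : ℝ} (m : ℕ) (hX : 1 < X) :
    Real.exp S / Real.log X ^ m = Real.exp (S - m * Real.log (Real.log X)) := by
  have h : 0 < Real.log X := Real.log_pos hX
  rw [Real.exp_sub, mul_comm, Real.exp_mul, Real.exp_log h, Real.rpow_natCast]

/-- The main step. -/
theorem law {a b : ℤ} {F : ℂ → ℂ} (hΔ : 4 * a ^ 3 + 27 * b ^ 2 ≠ 0)
    (hrs : Tendsto (rsSum a b) atTop (𝓝 0)) (hF : IsLSeries a b F) {ρ ρ' : ℝ} (hρ : 1 < ρ)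
    (hρ' : ρ < ρ') (m : ℕ) {B : ℂ} (hB : B ≠ 0) :
    (Leading F m B ∧ ∀ s ∈ Sector ρ, F s ≠ 0) ↔ Formula a b ρ ρ' m B := by
  have hc : Real.exp (m * ρ⁻¹ * Real.eulerMascheroniConstant) =
      Real.exp (m * Real.eulerMascheroniConstant / ρ) := by
    congr 1
    ring
  constructor
  · rintro ⟨⟨hm, hL⟩, hz⟩
    obtain ⟨κ, h1, h2⟩ := Pool.Agent.TH942.SL.Sr_lim hΔ hrs hF hρ hρ' hm
      fun s h3 h4 => hz s ⟨h3, h4⟩
    rw [hL, hc] at h2
    have h3 : ((√2 * Real.exp (m * Real.eulerMascheroniConstant / ρ) : ℝ) : ℂ) / B =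
        ((Real.exp κ : ℝ) : ℂ) := by
      rw [← h2, mul_div_assoc, div_self hB, mul_one]
    unfold Formula
    rw [h3]
    refine (Complex.continuous_ofReal.tendsto _).comp ?_
    refine ((Real.continuous_exp.tendsto κ).comp h1).congr' ?_
    filter_upwards [eventually_gt_atTop 1] with X hX
    simp only [Function.comp_apply]
    rw [mean_eq, exp_eq' m hX]
  · intro h
    unfold Formula at h
    obtain ⟨c, hc0, hc1⟩ : ∃ c : ℝ, 0 < c ∧
        ((√2 * Real.exp (m * Real.eulerMascheroniConstant / ρ) : ℝ) : ℂ) / B = (c : ℂ) := by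
      set w : ℂ := ((√2 * Real.exp (m * Real.eulerMascheroniConstant / ρ) : ℝ) : ℂ) / B with hw
      have h2 : 0 < √2 * Real.exp (m * Real.eulerMascheroniConstant / ρ) := by positivity
      have h3 : w ≠ 0 := by
        rw [hw]
        refine div_ne_zero ?_ hB
        exact_mod_cast h2.ne'
      have him : w.im = 0 := by
        have e1 : Tendsto (fun _ : ℝ => (0 : ℝ)) atTop (𝓝 w.im) := by
          refine ((Complex.continuous_im.tendsto w).comp h).congr fun X => ?_
          simp only [Function.comp_apply, Complex.ofReal_im]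
        exact (tendsto_nhds_unique e1 tendsto_const_nhds)
      have hre : 0 ≤ w.re := by
        have e1 : Tendsto (fun X : ℝ => Real.exp (mean a b ρ ρ' X) / Real.log X ^ m) atTop
            (𝓝 w.re) := by
          refine ((Complex.continuous_re.tendsto w).comp h).congr fun X => ?_
          simp only [Function.comp_apply, Complex.ofReal_re]
        refine ge_of_tendsto e1 ?_
        filter_upwards [eventually_gt_atTop 1] with X hX
        have := Real.log_pos hX
        positivity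
      have hwr : w = (w.re : ℂ) := by
        apply Complex.ext
        · rw [Complex.ofReal_re]
        · rw [Complex.ofReal_im, him]
      refine ⟨w.re, lt_of_le_of_ne hre ?_, hwr⟩
      intro h0
      apply h3
      rw [hwr, ← h0, Complex.ofReal_zero]
    rw [hc1] at h
    have h1 : Tendsto (fun X : ℝ => Real.exp (mean a b ρ ρ' X) / Real.log X ^ m) atTop (𝓝 c) := by
      refine ((Complex.continuous_re.tendsto (c : ℂ)).comp h).congr fun X => ?_
      simp only [Function.comp_apply, Complex.ofReal_re]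
    have h2 : Tendsto (fun X : ℝ => Pool.Agent.TH942.SL.Sr a b ρ ρ' X -
        m * Real.log (Real.log X)) atTop (𝓝 (Real.log c)) := by
      refine (((Real.continuousAt_log hc0.ne').tendsto).comp h1).congr' ?_
      filter_upwards [eventually_gt_atTop 1] with X hX
      simp only [Function.comp_apply]
      rw [exp_eq' m hX, Real.log_exp, mean_eq]
    -- the sector
    have h3 : ∀ᶠ X : ℝ in atTop, |Pool.Agent.TH942.SL.Sr a b ρ ρ' X| ≤
        (m + 1) * Real.log (Real.log X) := by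
      have e1 : ∀ᶠ X : ℝ in atTop, |Pool.Agent.TH942.SL.Sr a b ρ ρ' X -
          m * Real.log (Real.log X)| < |Real.log c| + 1 :=
        (h2.abs.eventually (gt_mem_nhds (lt_add_one _)))
      filter_upwards [e1, loglog_tendsto.eventually_ge_atTop (|Real.log c| + 1),
        loglog_tendsto.eventually_ge_atTop 0] with X h4 h5 h6
      have h7 := abs_sub_abs_le_abs_sub (Pool.Agent.TH942.SL.Sr a b ρ ρ' X)
        (m * Real.log (Real.log X))
      rw [abs_of_nonneg (mul_nonneg (Nat.cast_nonneg m) h6)] at h7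
      nlinarith
    have hz := Pool.Agent.TH942.SL.sector_of_small hF hρ hρ' h3
    -- the order
    obtain ⟨r, hr⟩ := order_finite hF
    obtain ⟨κ, h4, h5⟩ := Pool.Agent.TH942.SL.Sr_lim hΔ hrs hF hρ hρ' hr hz
    have hrm : r = m := by
      by_contra hne
      have h6 : Tendsto (fun X : ℝ => ((r : ℝ) - m) * Real.log (Real.log X)) atTop
          (𝓝 (Real.log c - κ)) := by
        refine (h2.sub h4).congr fun X => ?_
        ring
      have h7 : ((r : ℝ) - m) ≠ 0 := sub_ne_zero.2 (by exact_mod_cast hne)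
      have h8 : Tendsto (fun X : ℝ => Real.log (Real.log X)) atTop
          (𝓝 (((r : ℝ) - m)⁻¹ * (Real.log c - κ))) := by
        refine (h6.const_mul ((r : ℝ) - m)⁻¹).congr fun X => ?_
        rw [← mul_assoc, inv_mul_cancel₀ h7, one_mul]
      exact not_tendsto_nhds_of_tendsto_atTop loglog_tendsto _ h8
    subst hrm
    have hκ : κ = Real.log c := tendsto_nhds_unique h4 h2
    refine ⟨⟨hr, ?_⟩, fun s hs => hz s hs.1 hs.2⟩
    rw [hκ, Real.exp_log hc0, hc, ← hc1] at h5
    have h6 : ((√2 * Real.exp (r * Real.eulerMascheroniConstant / ρ) : ℝ) : ℂ) ≠ 0 := by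
      have : 0 < √2 * Real.exp (r * Real.eulerMascheroniConstant / ρ) := by positivity
      exact_mod_cast this.ne'
    rw [div_mul_eq_mul_div, div_eq_iff hB] at h5
    exact mul_left_cancel₀ h6 h5

/-- **Theorem.** Let `f` be the newform of `C : y² = x³ + a x + b` and `F` the entire continuation of the
incomplete `L`-series of `C`. For every natural number `m` and every complex number `B ≠ 0`:

(1) for all `ρ > 1` and `ρ' > ρ`, `F` has order `m` and leading coefficient `B` at `s = 1` and no zero in the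
sector `|arg (s - 1)| < π/(2ρ)` if and only if `exp (S_ρ(X)) ∼ (√2 e^{mγ/ρ} / B) (log X)^m`;

(2) `F` has order `m` and leading coefficient `B` at `s = 1` and no zero with `Re s > 1` if and only if this
formula holds for all `ρ > 1` (and one, or all, `ρ' > ρ`). -/
theorem result (a b : ℤ) (hΔ : 4 * a ^ 3 + 27 * b ^ 2 ≠ 0) (F : ℂ → ℂ) (hF : IsLSeries a b F)
    (N : ℕ) [NeZero N] (f : CuspForm (Gamma0 N : Subgroup (GL (Fin 2) ℝ)) 2)
    (hf : IsNewformOf a b N f) (m : ℕ) (B : ℂ) (hB : B ≠ 0) :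
    (∀ ρ ρ' : ℝ, 1 < ρ → ρ < ρ' →
      ((Leading F m B ∧ ∀ s ∈ Sector ρ, F s ≠ 0) ↔ Formula a b ρ ρ' m B)) ∧
    ((Leading F m B ∧ ∀ s : ℂ, 1 < s.re → F s ≠ 0) ↔
      ∀ ρ : ℝ, 1 < ρ → ∃ ρ' : ℝ, ρ < ρ' ∧ Formula a b ρ ρ' m B) ∧
    ((Leading F m B ∧ ∀ s : ℂ, 1 < s.re → F s ≠ 0) ↔
      ∀ ρ ρ' : ℝ, 1 < ρ → ρ < ρ' → Formula a b ρ ρ' m B) := by
  have hrs : Tendsto (rsSum a b) atTop (𝓝 0) :=
    (hecke hf).rsSum_tendsto hΔ fun p hp => hf.points p hp
  have h1 : ∀ ρ ρ' : ℝ, 1 < ρ → ρ < ρ' →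
      ((Leading F m B ∧ ∀ s ∈ Sector ρ, F s ≠ 0) ↔ Formula a b ρ ρ' m B) :=
    fun ρ ρ' hρ hρ' => law hΔ hrs hF hρ hρ' m hB
  have h2 : (Leading F m B ∧ ∀ s : ℂ, 1 < s.re → F s ≠ 0) →
      ∀ ρ ρ' : ℝ, 1 < ρ → ρ < ρ' → Formula a b ρ ρ' m B := by
    rintro ⟨h3, h4⟩ ρ ρ' hρ hρ'
    exact (h1 ρ ρ' hρ hρ').1 ⟨h3, fun s hs =>
      h4 s (Pool.Agent.TH942.SL.re_of_sector hρ hs.1 hs.2)⟩
  have h3 : (∀ ρ : ℝ, 1 < ρ → ∃ ρ' : ℝ, ρ < ρ' ∧ Formula a b ρ ρ' m B) →
      (Leading F m B ∧ ∀ s : ℂ, 1 < s.re → F s ≠ 0) := by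
    intro h
    refine ⟨?_, fun s hs => ?_⟩
    · obtain ⟨ρ', h4, h5⟩ := h 2 (by norm_num)
      exact ((h1 2 ρ' (by norm_num) h4).2 h5).1
    · obtain ⟨ρ, hρ, h4⟩ := Pool.Agent.TH942.SL.mem_sector hs
      obtain ⟨ρ', h5, h6⟩ := h ρ hρ
      refine ((h1 ρ ρ' hρ h5).2 h6).2 s ⟨?_, h4⟩
      intro h0
      rw [h0, Complex.one_re] at hs
      exact lt_irrefl _ hs
  exact ⟨h1, ⟨fun h ρ hρ => ⟨ρ + 1, lt_add_one ρ, h2 h ρ _ hρ (lt_add_one ρ)⟩, h3⟩,
    ⟨h2, fun h => h3 fun ρ hρ => ⟨ρ + 1, lt_add_one ρ, h ρ _ hρ (lt_add_one ρ)⟩⟩⟩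

end Pool.Agent.Results.MP_92892c_nt.SectorialLeadingTerm
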