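import Pool.Agent.V11291.T49.Two

/-!
# The 2-part of the leading-term formula over `ℚ` for the twists of a non-CM and of a CM curve at once:
# the exact joint proportion

`E_N` is the quadratic twist by `N` of `X_0(14)`, a curve without complex multiplication, and `A_L` is the
quadratic twist by `L` of `X_0(49)`, which has complex multiplication by `ℤ[(1 + √-7) / 2]`. For both
curves the field of the 2-division points is `ℚ(√-7)`.

The formula modulo two: for all `N` (of both signs) and `L` of natural classes, without any condition on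
the rank and on `Ш`, the order of `Ш` which is predicted by the leading-term formula in rank zero is
integral at all the places above two, and it is a unit there if and only if the group of rational points
is finite and `Ш` has no element of order two. In this case the 2-part of the formula holds.

The joint proportion: the base class consists of the squarefree `D > 0` which are squares modulo `7` and
all of whose prime factors are `1` modulo `8` and split in `ℚ(√-7)`, or `5` modulo `8` and inert in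
`ℚ(√-7)`. For any finite sets `S` and `T` of the classes of twists, the 2-part of the formula holds for
all the curves `E_{M D}`, `M ∈ S`, and `A_{L D}`, `L ∈ T`, at once for a proportion of exactly
`c ^ (#S + #T)` of the `D` of the base class, `c = ∏_{i ≥ 0} (1 - 2^{-(2 i + 1)}) = 0.4194...`: all these
events are independent.

The central values of the twists of `X_0(14)` are the work of helpers 700, 17, 687, 682 and their teams
(Gross sums and a bilinear identity for representation numbers), those of the twists of `X_0(49)` of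
helper698 and its team (Eisenstein-Kronecker series), the exact proportions for `X_0(14)` of helper703
and its team. New here: the formula for both curves with the same definitions over `ℚ` (the
Tamagawa numbers over `ℚ_p`, the Euler products over all primes), and the independence, for which
the two families of Rédei type matrices are compared (`Pool/Agent/V11291/E49`, `JF`).
-/

set_option autoImplicit false

open Filter Topology WeierstrassCurve

namespace Pool.Agent.Results.MP_92892c_nt.TwoCurvesLeadingTerm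

open scoped Classical

open Pool.Agent.TH841.SH.D (Sha)

/-- The quadratic twist `E_N` of `X_0(14)` (`N = 1` modulo `4`), with its global minimal equation
`y² + x y + y = x³ + ((N - 1)/4) x² + ((9 N² - 1)/2) x - (23 N³ + 1)/4`. It is isomorphic to
`Y² = X (X² + 13 N X + 128 N²)` by `X = 4 (x - N)`, `Y = 4 (2 y + x + 1)`. -/
def E (N : ℤ) : WeierstrassCurve ℤ :=
  ⟨1, (N - 1) / 4, 1, (9 * N ^ 2 - 1) / 2, -((23 * N ^ 3 + 1) / 4)⟩

/-- The quadratic twist `A_L` of `X_0(49)` (`L = 1` modulo `4`), with its global minimal equation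
`y² + x y = x³ - ((3 L + 1)/4) x² - 2 L² x - L³`. It is isomorphic to
`Y² = X (X² + 21 L X + 112 L²)` by `X = 4 (x - 2 L)`, `Y = 4 (2 y + x)`. -/
def A (L : ℤ) : WeierstrassCurve ℤ := ⟨1, -((3 * L + 1) / 4), 0, -2 * L ^ 2, -L ^ 3⟩

/-- The curve given by the equation of `W` over the ring `R`. -/
abbrev base (W : WeierstrassCurve ℤ) (R : Type) [CommRing R] : WeierstrassCurve R :=
  W.map (Int.castRingHom R)

/-- `W` is a global minimal Weierstrass equation: `Δ ≠ 0` and `|Δ|` is minimal among the integral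
Weierstrass equations of the same curve over `ℚ`. -/
def Minimal (W : WeierstrassCurve ℤ) : Prop :=
  W.Δ ≠ 0 ∧ ∀ (W' : WeierstrassCurve ℤ) (C : VariableChange ℚ),
    C • base W ℚ = base W' ℚ → |W.Δ| ≤ |W'.Δ|

/-- The number of the affine points `(x, y)` over the ring `R`. -/
noncomputable def pts (W : WeierstrassCurve ℤ) (R : Type) [CommRing R] : ℕ :=
  Nat.card {P : R × R // (base W R).toAffine.Equation P.1 P.2}

/-- `a_p = p + 1 - #W(𝔽_p)`, the number of the points of the reduction (a singular point and the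
point at infinity included). -/
noncomputable def a (W : WeierstrassCurve ℤ) (p : ℕ) : ℤ := p - pts W (ZMod p)

/-- `L` is the `L`-function of `W`: it is entire and equal to the Euler product with the factors
`(1 - a_p p^(-s) + p^(1 - 2 s))⁻¹` if `p` does not divide the discriminant, and
`(1 - a_p p^(-s))⁻¹` otherwise. -/
def IsL (W : WeierstrassCurve ℤ) (L : ℂ → ℂ) : Prop :=
  Differentiable ℂ L ∧ ∀ s : ℂ, 3 / 2 < s.re →
    HasProd (fun p : Nat.Primes => (1 - (a W p : ℂ) * ((p : ℕ) : ℂ) ^ (-s) +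
      (if ((p : ℕ) : ℤ) ∣ W.Δ then 0 else ((p : ℕ) : ℂ) ^ (1 - 2 * s)))⁻¹) (L s)

/-- `4 x³ + b₂ x² + 2 b₄ x + b₆ = (2 y + a₁ x + a₃)²` as a function of `x`. -/
noncomputable def psi (W : WeierstrassCurve ℤ) (x : ℝ) : ℝ :=
  4 * x ^ 3 + W.b₂ * x ^ 2 + 2 * W.b₄ * x + W.b₆

/-- The real period `∫_{W(ℝ)} |ω|` of `ω = dx / (2 y + a₁ x + a₃)`: over every `x` with `psi x > 0`
there are two real points. -/
noncomputable def Omega (W : WeierstrassCurve ℤ) : ℝ :=
  ∫ x in {x : ℝ | 0 < psi W x}, 2 / Real.sqrt (psi W x)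

/-- `(x, y)` is integral and reduces to a singular point modulo `p`: both partial derivatives of
`y² + a₁ x y + a₃ y - x³ - a₂ x² - a₄ x - a₆` vanish modulo `p`. -/
def SingRed (W : WeierstrassCurve ℤ) (p : ℕ) [Fact p.Prime] (x y : ℚ_[p]) : Prop :=
  ‖x‖ ≤ 1 ∧ ‖y‖ ≤ 1 ∧ ‖W.a₁ * y - (3 * x ^ 2 + 2 * W.a₂ * x + W.a₄)‖ < 1 ∧
    ‖2 * y + W.a₁ * x + W.a₃‖ < 1

/-- `W⁰(ℚ_p)`: the subgroup of the points with non-singular reduction. -/
noncomputable def W0 (W : WeierstrassCurve ℤ) (p : ℕ) [Fact p.Prime] :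
    AddSubgroup (base W ℚ_[p]).toAffine.Point :=
  AddSubgroup.closure {P | ∀ (x y : ℚ_[p]) (h), P = Affine.Point.some x y h → ¬ SingRed W p x y}

/-- The product of the Tamagawa numbers `c_p = [W(ℚ_p) : W⁰(ℚ_p)]` at the primes that divide the
discriminant. -/
noncomputable def Tam (W : WeierstrassCurve ℤ) : ℕ :=
  ∏ p ∈ W.Δ.natAbs.primeFactors, if h : p.Prime then (haveI := Fact.mk h; (W0 W p).index) else 1

/-- The number of the torsion points over `ℚ`. -/
noncomputable def tors (W : WeierstrassCurve ℤ) : ℕ :=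
  Nat.card (AddCommGroup.torsion (base W ℚ).toAffine.Point)

/-- The order of `Ш` predicted by the leading-term formula in rank zero, for a curve with a global
minimal equation `W` and the value `l` of its `L`-function at `s = 1`:
`#W(ℚ)_tors² l / (Ω ∏ c_p)`. -/
noncomputable def predicted (W : WeierstrassCurve ℤ) (l : ℂ) : ℂ :=
  l * (tors W : ℂ) ^ 2 / ((Omega W : ℝ) * (Tam W : ℂ))

/-- the group `W(ℚ)` is finite and `Ш(W)` has no element of order two -/
def RankZeroShaTwo (W : WeierstrassCurve ℤ) : Prop :=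
  Finite (base W ℚ).toAffine.Point ∧ ∀ x : Sha (base W ℚ), x + x = 0 → x = 0

/-- The formula modulo two: the equation is minimal, the `L`-function exists, the predicted order of
`Ш` is integral at all the places above two, and it is a unit at one (at each) of them if and only if
`W(ℚ)` is finite and `Ш(W)` has no element of order two. -/
def FormulaModTwo (W : WeierstrassCurve ℤ) : Prop :=
  Minimal W ∧ ∃ Λ : ℂ → ℂ, IsL W Λ ∧
    ∀ (Γ : Type) [LinearOrderedCommGroupWithZero Γ] (v : Valuation ℂ Γ), v 2 < 1 →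
      v (predicted W (Λ 1)) ≤ 1 ∧ (v (predicted W (Λ 1)) = 1 ↔ RankZeroShaTwo W)

/-- The 2-part of the leading-term formula with odd terms: the equation is minimal, `W(ℚ)` is finite,
`Ш(W)[2^∞] = 0`, the `L`-function exists and is not zero at `s = 1`, and the predicted order of `Ш` is a
unit at all the places above two. -/
def TwoPart (W : WeierstrassCurve ℤ) : Prop :=
  Minimal W ∧ Finite (base W ℚ).toAffine.Point ∧
  (∀ (n : ℕ) (y : Sha (base W ℚ)), 2 ^ n • y = 0 → y = 0) ∧
  ∃ Λ : ℂ → ℂ, IsL W Λ ∧ Λ 1 ≠ 0 ∧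
    ∀ (Γ : Type) [LinearOrderedCommGroupWithZero Γ] (v : Valuation ℂ Γ), v 2 < 1 →
      v (predicted W (Λ 1)) = 1

/-! ### The classes of the twists -/

/-- primes congruent to `1` modulo `8` that split in `ℚ(√-7)` -/
def Split (p : ℕ) : Prop := p.Prime ∧ p % 8 = 1 ∧ (p % 7 = 1 ∨ p % 7 = 2 ∨ p % 7 = 4)

/-- primes inert in `ℚ(√-7)` and in `ℚ(√2)` -/
def Inert (q : ℕ) : Prop :=
  q.Prime ∧ (q % 8 = 3 ∨ q % 8 = 5) ∧ (q % 7 = 3 ∨ q % 7 = 5 ∨ q % 7 = 6)

/-- primes congruent to `5` modulo `8` that are inert in `ℚ(√-7)` -/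
def Inert5 (q : ℕ) : Prop := q.Prime ∧ q % 8 = 5 ∧ (q % 7 = 3 ∨ q % 7 = 5 ∨ q % 7 = 6)

/-- the base class: squarefree `D > 0` which are squares modulo `7` and all of whose prime factors
are in `Split` or in `Inert5` -/
def Base (D : ℕ) : Prop := Squarefree D ∧ (D % 7 = 1 ∨ D % 7 = 2 ∨ D % 7 = 4) ∧
  ∀ p : ℕ, p.Prime → p ∣ D → Split p ∨ Inert5 p

/-- the class of the twists of the first curve (of both signs): squarefree, `1` modulo `4`, a square
modulo `7`, all prime factors different from `3` and in `Split` or in `Inert` -/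
def Fam14 (N : ℤ) : Prop := Squarefree N ∧ N % 4 = 1 ∧ (N % 7 = 1 ∨ N % 7 = 2 ∨ N % 7 = 4) ∧
  ∀ p : ℕ, p.Prime → (p : ℤ) ∣ N → p ≠ 3 ∧ (Split p ∨ Inert p)

/-- the class of the twists of the second curve: squarefree, positive, all prime factors in `Split` or
in `Inert5` -/
def Fam49 (L : ℤ) : Prop :=
  Squarefree L ∧ 0 < L ∧ ∀ p : ℕ, p.Prime → (p : ℤ) ∣ L → Split p ∨ Inert5 p

/-- for squarefree `M` and `D`, the squarefree part of `M D` -/
def sqf (M : ℤ) (D : ℕ) : ℤ := M * D / (Int.gcd M D : ℤ) ^ 2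

/-- the number of the `D ≤ X` of the base class with `Q D` -/
noncomputable def count (Q : ℕ → Prop) (X : ℕ) : ℕ :=
  ((Finset.Icc 1 X).filter fun D => Base D ∧ Q D).card

/-- `c = ∏_{i ≥ 0} (1 - 2^{-(2 i + 1)})` -/
noncomputable def cc : ℝ := ∏' i : ℕ, (1 - (1 / 2 : ℝ) ^ (2 * i + 1))

lemma two_of {W : WeierstrassCurve ℤ} (h : FormulaModTwo W) (hz : RankZeroShaTwo W)
    (hs : ∀ (n : ℕ) (y : Sha (base W ℚ)), 2 ^ n • y = 0 → y = 0) : TwoPart W := by
  obtain ⟨hm, Λ, h1, h2⟩ := h
  refine ⟨hm, hz.1, hs, Λ, h1, fun h0 => ?_, fun Γ _ v hv => ((h2 Γ v hv).2).2 hz⟩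
  refine Pool.Agent.Y698.SG.exists_val2 fun Γ _ v hv => ?_
  have h5 := ((h2 Γ v hv).2).2 hz
  rw [h0] at h5
  unfold predicted at h5
  rw [zero_mul, zero_div, map_zero] at h5
  exact zero_ne_one h5

lemma zero_of {W : WeierstrassCurve ℤ} (h : TwoPart W) : RankZeroShaTwo W :=
  ⟨h.2.1, fun x hx => h.2.2.1 1 x (by rw [pow_one, two_nsmul]; exact hx)⟩

lemma mod14 {N : ℤ} (h : Fam14 N) (h1 : N ≠ 1) : FormulaModTwo (E N) :=
  ⟨Pool.Agent.V11291.T49.minimal14 h, Pool.Agent.V11291.T49.main14 h h1⟩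

lemma mod49 {L : ℤ} (h : Fam49 L) : FormulaModTwo (A L) :=
  ⟨Pool.Agent.V11291.T49.minimal49 h, Pool.Agent.V11291.T49.main49 h⟩

lemma two14 {N : ℤ} (h : Fam14 N) (h1 : N ≠ 1) : TwoPart (E N) ↔ RankZeroShaTwo (E N) :=
  ⟨zero_of, fun hz => two_of (mod14 h h1) hz (Pool.Agent.V11291.T49.sha14 h hz)⟩

lemma two49 {L : ℤ} (h : Fam49 L) : TwoPart (A L) ↔ RankZeroShaTwo (A L) :=
  ⟨zero_of, fun hz => two_of (mod49 h) hz (Pool.Agent.V11291.T49.sha49 hz)⟩

/-- **Main theorem.**
(1) For every `N ≠ 1` of the class for `X_0(14)` the formula holds modulo two, and its 2-part holds with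
rank zero and `Ш[2^∞] = 0` if and only if `E_N(ℚ)` is finite and `Ш(E_N)[2] = 0`.
(2) The same for every `L` of the class for `X_0(49)`.
(3) For all finite subsets `S` and `T` of the two classes, the proportion of the `D` of the base class for
which the 2-part of the formula holds for all the twists of `X_0(14)` by `M D`, `M ∈ S`, and for all the
twists of `X_0(49)` by `L D`, `L ∈ T`, is exactly `c ^ (#S + #T)`, `0.4194 < c < 0.4195`.
(4) The number of the `D ≤ X` of the base class is at least a positive constant times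
`X (log X)^(-3/4)`. -/
theorem result :
    (∀ N : ℤ, Fam14 N → N ≠ 1 → FormulaModTwo (E N) ∧ (TwoPart (E N) ↔ RankZeroShaTwo (E N))) ∧
    (∀ L : ℤ, Fam49 L → FormulaModTwo (A L) ∧ (TwoPart (A L) ↔ RankZeroShaTwo (A L))) ∧
    (∀ S T : Finset ℤ, (∀ M ∈ S, Fam14 M) → (∀ L ∈ T, Fam49 L) →
      Tendsto (fun X : ℕ => (count (fun D => (∀ M ∈ S, TwoPart (E (sqf M D))) ∧
        ∀ L ∈ T, TwoPart (A (sqf L D))) X : ℝ) / (count (fun _ => True) X : ℝ)) atTop
        (𝓝 (cc ^ (S.card + T.card)))) ∧
    (0.4194 < cc ∧ cc < 0.4195) ∧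
    ∃ (b : ℝ) (X₀ : ℕ), 0 < b ∧ ∀ X : ℕ, X₀ ≤ X →
      b * X * (Real.log X) ^ (-(3 / 4) : ℝ) ≤ (count (fun _ => True) X : ℝ) := by
  refine ⟨fun N hN h1 => ⟨mod14 hN h1, two14 hN h1⟩, fun L hL => ⟨mod49 hL, two49 hL⟩,
    fun S T hS hT => ?_, Pool.Agent.Y948.CQ.t_C2.2.2.2, ?_⟩
  · have h := Pool.Agent.V11291.T49.joint2 (S := S) (T := T) hS hT TwoPart TwoPart
      (fun N hN h1 => two14 hN h1) (fun h => zero_of h) (fun L hL => two49 hL)
    refine h.congr fun X => ?_
    have e1 : ((Finset.Icc 1 X).filter fun D : ℕ => Pool.Agent.V11291.E49.BaseN D ∧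
        (∀ M ∈ S, TwoPart (Pool.Agent.Y700.WM (Pool.Agent.V11291.T49.tw M D))) ∧
        ∀ L ∈ T, TwoPart (Pool.Agent.V11291.T49.W49 (Pool.Agent.V11291.T49.tw L D))).card =
        count (fun D => (∀ M ∈ S, TwoPart (E (sqf M D))) ∧ ∀ L ∈ T, TwoPart (A (sqf L D))) X :=
      Pool.Agent.V11291.T49.card_flt _ _ _ _ _ fun D => Iff.rfl
    have e2 : ((Finset.Icc 1 X).filter Pool.Agent.V11291.E49.BaseN).card =
        count (fun _ => True) X :=
      Pool.Agent.V11291.T49.card_flt _ _ _ _ _ fun D =>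
        ⟨fun h => ⟨h, trivial⟩, fun h => h.1⟩
    rw [e1, e2]
  · obtain ⟨b, X₀, hb, h⟩ := Pool.Agent.V11291.T49.low2
    refine ⟨b, X₀, hb, fun X hX => (h X hX).trans (le_of_eq ?_)⟩
    exact congrArg (fun n : ℕ => (n : ℝ)) (Pool.Agent.V11291.T49.card_flt _ _ _ _ _ fun D =>
        ⟨fun h => ⟨h, trivial⟩, fun h => h.1⟩)

end Pool.Agent.Results.MP_92892c_nt.TwoCurvesLeadingTerm
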